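import Pool.Agent.X87.PK.Bridge

/-! # `MP_3c540c_co`, Q1: the graphs with property `𝒫_k`, for all odd `k`

The definitions are in `Pool/Agent/X87/PK/Defs.lean`: `MGraph` (finite graphs with parallel edges
and loops), `cut`, `Admissible`, `Eulerian`, `IsCircuit`, `FaithfulCover`, `HasP` (the property
`𝒫_k`), `Bridgeless` and `PetersenSubdivision G` (the subdivisions of the Petersen graph in `G`).

For odd `k` the property `𝒫_k` fails for every graph which contains a subdivision of the Petersen
graph. With the theorem of Alspach, Goddyn and Zhang (the case `k = 1` for bridgeless graphs), which
is a hypothesis of the last part and is not proved here, the graphs with the property `𝒫_k` are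
determined for every odd `k`: they are the graphs without a subdivision of the Petersen graph.

Idea. On a subdivision of the Petersen graph take the weight `k` on two disjoint pentagons and `2k`
on the perfect matching between them, and `0` on all other edges. In a faithful circuit cover every
circuit `C` is contained in the subdivision, and because the cuts at the branch vertices are tight
it passes through the matching at each branch vertex on it. Hence the matching edges used by `C`
have ends that are matched by edges of `C` in the outer pentagon and in the inner pentagram. So
their number is even, and it is not `2` since the Petersen graph has no circuit of length `4`: it is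
`0` or `4`. The total weight `10 k` of the matching would be divisible by `4`. -/

set_option autoImplicit false

namespace Pool.Agent.Results.MP_3c540c_co.OddMultiples

open Pool.Agent.X87.PK

/-- (1) For odd `k`, every graph `G` which contains a subdivision of the Petersen graph has an
admissible eulerian weight with values in `{0, k, 2k}` without a faithful circuit cover.
(2) So for odd `k` a graph with the property `𝒫_k` contains no subdivision of the Petersen graph.
(3) If, as Alspach, Goddyn and Zhang proved, every bridgeless graph without a subdivision of the
Petersen graph has the property `𝒫_1`, then for every odd `k` the graphs with the property `𝒫_k`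
are exactly the graphs without a subdivision of the Petersen graph. -/
theorem result :
    (∀ (G : MGraph) (k : ℕ), Odd k → Nonempty (PetersenSubdivision G) →
      ∃ w : G.E → ℕ, (∀ e, w e = 0 ∨ w e = k ∨ w e = 2 * k) ∧ G.Admissible w ∧ G.Eulerian w ∧
        ¬ G.FaithfulCover w) ∧
    (∀ (G : MGraph) (k : ℕ), Odd k → G.HasP k → IsEmpty (PetersenSubdivision G)) ∧
    ((∀ G : MGraph, G.Bridgeless → IsEmpty (PetersenSubdivision G) → G.HasP 1) →
      ∀ (G : MGraph) (k : ℕ), Odd k → (G.HasP k ↔ IsEmpty (PetersenSubdivision G))) := by
  refine ⟨?_, ?_, ?_⟩
  · rintro G k hk ⟨S⟩
    refine ⟨S.wt k, ?_, S.admissible k, S.eulerian k, S.no_cover hk⟩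
    intro e
    by_cases h : S.wt k e = 0
    · exact Or.inl h
    · right
      obtain ⟨p, j, hj, rfl⟩ := S.wt_ne k h
      rw [S.wt_edge k hj]
      have h2 : ∀ p, pw p = 1 ∨ pw p = 2 := by decide +kernel
      rcases h2 p with h1 | h1 <;> rw [h1]
      · left
        ring
      · right
        ring
  · intro G k hk h
    exact ⟨fun S => not_hasP S hk h⟩
  · intro agz G k hk
    exact classification agz G hk

end Pool.Agent.Results.MP_3c540c_co.OddMultiples
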